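import Mathlib

-- part MP_812062_gt.Remetrize
section

/-! Remetrization: given a closed symmetric reflexive relation `F` on a compact metric space and a
compact set `Z` of pairs missing `F ∘ F`, there is an equivalent metric that is at most `1` on `F`
and at least `3` on `Z`. -/

set_option autoImplicit false

namespace Pool.Agent.MP_812062_gt

open Set Metric

variable {X : Type} [MetricSpace X]

/-- Truncated scaled distance to a set. -/
noncomputable def cutDist (δ : ℝ) (S : Set X) (p : X) : ℝ := min 1 (infDist p S / δ)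

/-- One thickened step along the relation. -/
def stepSet (F : X → X → Prop) (δ : ℝ) (S : Set X) : Set X := {q | ∃ p, infDist p S < δ ∧ F p q}

/-- The potential function based at `y`. -/
noncomputable def pot (F : X → X → Prop) (δ : ℝ) (y p : X) : ℝ :=
  cutDist δ {y} p + cutDist δ (stepSet F δ {y}) p + cutDist δ (stepSet F δ (stepSet F δ {y})) p

lemma cut_nonneg {δ : ℝ} (hδ : 0 < δ) (S : Set X) (p : X) : 0 ≤ cutDist δ S p :=
  le_min zero_le_one (div_nonneg infDist_nonneg hδ.le)

lemma cut_le_one (δ : ℝ) (S : Set X) (p : X) : cutDist δ S p ≤ 1 := min_le_left _ _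

lemma cut_of_mem (δ : ℝ) {S : Set X} {p : X} (h : p ∈ S) : cutDist δ S p = 0 := by
  simp [cutDist, infDist_zero_of_mem h]

lemma cut_of_le {δ : ℝ} (hδ : 0 < δ) {S : Set X} {p : X} (h : δ ≤ infDist p S) :
    cutDist δ S p = 1 := by
  unfold cutDist
  exact min_eq_left ((one_le_div hδ).2 h)

lemma cut_lip {δ : ℝ} (hδ : 0 < δ) (S : Set X) (p q : X) :
    cutDist δ S p ≤ cutDist δ S q + dist p q / δ := by
  unfold cutDist
  have h1 : infDist p S / δ ≤ infDist q S / δ + dist p q / δ := by
    rw [← add_div]
    exact div_le_div_of_nonneg_right infDist_le_infDist_add_dist hδ.le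
  have h2 : 0 ≤ dist p q / δ := div_nonneg dist_nonneg hδ.le
  rcases le_total 1 (infDist q S / δ) with h | h
  · rw [min_eq_left h]
    have := min_le_left 1 (infDist p S / δ)
    linarith
  · rw [min_eq_right h]
    have := min_le_right 1 (infDist p S / δ)
    linarith

lemma subset_step {F : X → X → Prop} (hr : ∀ p, F p p) {δ : ℝ} (hδ : 0 < δ) (S : Set X) :
    S ⊆ stepSet F δ S := fun p hp => ⟨p, by rw [infDist_zero_of_mem hp]; exact hδ, hr p⟩

lemma pot_nonneg (F : X → X → Prop) {δ : ℝ} (hδ : 0 < δ) (y p : X) : 0 ≤ pot F δ y p := by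
  unfold pot
  have := cut_nonneg hδ ({y} : Set X) p
  have := cut_nonneg hδ (stepSet F δ {y}) p
  have := cut_nonneg hδ (stepSet F δ (stepSet F δ {y})) p
  linarith

lemma pot_le_three (F : X → X → Prop) (δ : ℝ) (y p : X) : pot F δ y p ≤ 3 := by
  unfold pot
  have := cut_le_one δ ({y} : Set X) p
  have := cut_le_one δ (stepSet F δ {y}) p
  have := cut_le_one δ (stepSet F δ (stepSet F δ {y})) p
  linarith

lemma pot_self {F : X → X → Prop} (hr : ∀ p, F p p) {δ : ℝ} (hδ : 0 < δ) (y : X) :
    pot F δ y y = 0 := by
  unfold pot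
  have h0 : y ∈ ({y} : Set X) := rfl
  have h1 := subset_step hr hδ _ h0
  have h2 := subset_step hr hδ _ h1
  rw [cut_of_mem δ h0, cut_of_mem δ h1, cut_of_mem δ h2]
  ring

lemma pot_lip (F : X → X → Prop) {δ : ℝ} (hδ : 0 < δ) (y p q : X) :
    pot F δ y p ≤ pot F δ y q + 3 * (dist p q / δ) := by
  unfold pot
  have := cut_lip hδ ({y} : Set X) p q
  have := cut_lip hδ (stepSet F δ {y}) p q
  have := cut_lip hδ (stepSet F δ (stepSet F δ {y})) p q
  linarith

lemma pot_rel {F : X → X → Prop} (hr : ∀ p, F p p) {δ : ℝ} (hδ : 0 < δ) (y : X) {p q : X}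
    (h : F p q) : pot F δ y q ≤ pot F δ y p + 1 := by
  have a0 := cut_nonneg hδ ({y} : Set X) p
  have a1 := cut_nonneg hδ (stepSet F δ {y}) p
  have a2 := cut_nonneg hδ (stepSet F δ (stepSet F δ {y})) p
  have b0 := cut_le_one δ ({y} : Set X) q
  have b1 := cut_le_one δ (stepSet F δ {y}) q
  have b2 := cut_le_one δ (stepSet F δ (stepSet F δ {y})) q
  unfold pot
  rcases lt_or_ge (infDist p ({y} : Set X)) δ with h0 | h0
  · have q1 : q ∈ stepSet F δ {y} := ⟨p, h0, h⟩
    have q2 := subset_step hr hδ _ q1
    rw [cut_of_mem δ q1, cut_of_mem δ q2]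
    linarith
  · have c0 := cut_of_le hδ h0
    rcases lt_or_ge (infDist p (stepSet F δ {y})) δ with h1 | h1
    · have q2 : q ∈ stepSet F δ (stepSet F δ {y}) := ⟨p, h1, h⟩
      rw [cut_of_mem δ q2]
      linarith
    · have c1 := cut_of_le hδ h1
      linarith

lemma pot_far {F : X → X → Prop} (hr : ∀ p, F p p) {δ : ℝ} (hδ : 0 < δ) {y y' : X}
    (h : ∀ p0 p1 p2 p3, dist y p0 < δ → F p0 p1 → dist p1 p2 < δ → F p2 p3 → δ ≤ dist p3 y') :
    pot F δ y y' = 3 := by
  have h0 : y ∈ ({y} : Set X) := rfl
  have s01 := subset_step hr hδ ({y} : Set X)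
  have s12 := subset_step hr hδ (stepSet F δ {y})
  have key : ∀ q ∈ stepSet F δ (stepSet F δ {y}), δ ≤ dist y' q := by
    rintro q ⟨p2, hp2, hF2⟩
    obtain ⟨p1, ⟨p0, hp0, hF0⟩, hd⟩ := (infDist_lt_iff ⟨y, s01 h0⟩).1 hp2
    rw [infDist_singleton] at hp0
    rw [dist_comm]
    exact h p0 p1 p2 q (by rwa [dist_comm]) hF0 (by rwa [dist_comm]) hF2
  have e2 : δ ≤ infDist y' (stepSet F δ (stepSet F δ {y})) :=
    (le_infDist ⟨y, s12 (s01 h0)⟩).2 fun q hq => key q hq
  have e1 : δ ≤ infDist y' (stepSet F δ {y}) :=
    (le_infDist ⟨y, s01 h0⟩).2 fun q hq => key q (s12 hq)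
  have e0 : δ ≤ infDist y' ({y} : Set X) :=
    (le_infDist ⟨y, h0⟩).2 fun q hq => key q (s12 (s01 hq))
  unfold pot
  rw [cut_of_le hδ e0, cut_of_le hδ e1, cut_of_le hδ e2]
  norm_num

/-- The new distance. -/
noncomputable def newDist (F : X → X → Prop) (δ : ℝ) (p q : X) : ℝ :=
  ⨆ y : X, |pot F δ y p - pot F δ y q|

lemma bdd_pot (F : X → X → Prop) {δ : ℝ} (hδ : 0 < δ) (p q : X) :
    BddAbove (range fun y : X => |pot F δ y p - pot F δ y q|) := by
  refine ⟨3, ?_⟩
  rintro _ ⟨y, rfl⟩
  have := pot_nonneg F hδ y p
  have := pot_nonneg F hδ y q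
  have := pot_le_three F δ y p
  have := pot_le_three F δ y q
  exact abs_le.2 ⟨by linarith, by linarith⟩

lemma le_newDist (F : X → X → Prop) {δ : ℝ} (hδ : 0 < δ) (y p q : X) :
    |pot F δ y p - pot F δ y q| ≤ newDist F δ p q := le_ciSup (bdd_pot F hδ p q) y

lemma newDist_le (F : X → X → Prop) (δ : ℝ) (p q : X) {c : ℝ}
    (h : ∀ y, |pot F δ y p - pot F δ y q| ≤ c) : newDist F δ p q ≤ c :=
  haveI : Nonempty X := ⟨p⟩
  ciSup_le h

lemma newDist_lower {F : X → X → Prop} (hr : ∀ p, F p p) {δ : ℝ} (hδ : 0 < δ) (p q : X) :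
    min 1 (dist p q / δ) ≤ newDist F δ p q := by
  have h := le_newDist F hδ q p q
  rw [pot_self hr hδ, sub_zero, abs_of_nonneg (pot_nonneg F hδ q p)] at h
  refine le_trans ?_ h
  unfold pot
  have := cut_nonneg hδ (stepSet F δ {q}) p
  have := cut_nonneg hδ (stepSet F δ (stepSet F δ {q})) p
  have e : cutDist δ ({q} : Set X) p = min 1 (dist p q / δ) := by
    simp [cutDist, infDist_singleton]
  linarith

lemma newDist_upper (F : X → X → Prop) {δ : ℝ} (hδ : 0 < δ) (p q : X) :
    newDist F δ p q ≤ 3 * (dist p q / δ) := by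
  refine newDist_le F δ p q fun y => ?_
  have h1 := pot_lip F hδ y p q
  have h2 := pot_lip F hδ y q p
  rw [dist_comm q p] at h2
  exact abs_le.2 ⟨by linarith, by linarith⟩

/-- A copy of a type, to carry the new metric. -/
structure Copy (X : Type) : Type where
  /-- the underlying point -/
  val : X

/-- The new metric on the copy. -/
@[reducible] noncomputable def copyMetric {F : X → X → Prop} (hr : ∀ p, F p p) {δ : ℝ}
    (hδ : 0 < δ) : MetricSpace (Copy X) where
  dist p q := newDist F δ p.val q.val
  dist_self p := by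
    refine le_antisymm (newDist_le F δ _ _ fun y => by simp) ?_
    exact le_trans (abs_nonneg _) (le_newDist F hδ p.val p.val p.val)
  dist_comm p q := by
    unfold newDist
    congr 1
    funext y
    exact abs_sub_comm _ _
  dist_triangle p q r := by
    refine newDist_le F δ _ _ fun y => ?_
    have h1 := le_newDist F hδ y p.val q.val
    have h2 := le_newDist F hδ y q.val r.val
    have h3 := abs_sub_le (pot F δ y p.val) (pot F δ y q.val) (pot F δ y r.val)
    linarith
  eq_of_dist_eq_zero := by
    intro p q h
    have h1 := newDist_lower hr hδ p.val q.val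
    have h' : newDist F δ p.val q.val = 0 := h
    rw [h'] at h1
    have h2 : dist p.val q.val / δ ≤ 0 := by
      rcases min_le_iff.1 h1 with h3 | h3
      · linarith
      · exact h3
    have h3 : dist p.val q.val ≤ 0 := by
      by_contra hc
      have := div_pos (not_le.1 hc) hδ
      linarith
    have h4 : p.val = q.val := dist_le_zero.1 h3
    cases p
    cases q
    simp_all

theorem exists_remetrize {F : X → X → Prop} (hs : ∀ p q, F p q → F q p) (hr : ∀ p, F p p)
    {δ : ℝ} (hδ : 0 < δ) :
    ∃ (X' : Type) (_ : MetricSpace X') (e : X ≃ₜ X'),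
      (∀ p q, F p q → dist (e p) (e q) ≤ 1) ∧
      (∀ y y', (∀ p0 p1 p2 p3, dist y p0 < δ → F p0 p1 → dist p1 p2 < δ → F p2 p3 →
        δ ≤ dist p3 y') → 3 ≤ dist (e y) (e y')) := by
  let m : MetricSpace (Copy X) := copyMetric hr hδ
  have hd : ∀ p q : Copy X, dist p q = newDist F δ p.val q.val := fun _ _ => rfl
  have c1 : Continuous (fun p : X => (⟨p⟩ : Copy X)) := by
    refine Metric.continuous_iff.2 fun b ε hε => ⟨ε * δ / 3, by positivity, fun a ha => ?_⟩
    rw [hd]
    refine lt_of_le_of_lt (newDist_upper F hδ a b) ?_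
    have : dist a b / δ < ε / 3 := by
      rw [div_lt_iff₀ hδ]
      linarith
    linarith
  have c2 : Continuous (fun p : Copy X => p.val) := by
    refine Metric.continuous_iff.2 fun b ε hε =>
      ⟨min 1 (ε / δ), lt_min one_pos (div_pos hε hδ), fun a ha => ?_⟩
    rw [hd] at ha
    have h1 := lt_of_le_of_lt (newDist_lower hr hδ a.val b.val) ha
    have h2 : dist a.val b.val / δ < ε / δ := by
      by_contra hc
      have := min_le_min_left 1 (not_lt.1 hc)
      linarith
    exact (div_lt_div_iff_of_pos_right hδ).1 h2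
  let e : X ≃ₜ Copy X :=
    { toFun := fun p => ⟨p⟩
      invFun := fun p => p.val
      left_inv := fun _ => rfl
      right_inv := fun _ => rfl
      continuous_toFun := c1
      continuous_invFun := c2 }
  refine ⟨Copy X, m, e, fun p q h => ?_, fun y y' h => ?_⟩
  · change newDist F δ p q ≤ 1
    refine newDist_le F δ p q fun y => ?_
    have h1 := pot_rel hr hδ y h
    have h2 := pot_rel hr hδ y (hs _ _ h)
    exact abs_le.2 ⟨by linarith, by linarith⟩
  · change 3 ≤ newDist F δ y y'
    have h1 := le_newDist F hδ y y y'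
    rw [pot_self hr hδ, pot_far hr hδ h] at h1
    norm_num at h1
    exact h1

theorem exists_gap [CompactSpace X] {F : X → X → Prop} (hF : IsClosed {p : X × X | F p.1 p.2})
    {Z : Set (X × X)} (hZ : IsCompact Z) (h : ∀ z ∈ Z, ∀ p, F z.1 p → ¬ F p z.2) :
    ∃ δ : ℝ, 0 < δ ∧ ∀ z ∈ Z, ∀ p0 p1 p2 p3, dist z.1 p0 < δ → F p0 p1 → dist p1 p2 < δ →
      F p2 p3 → δ ≤ dist p3 z.2 := by
  have hG : IsCompact {p : X × X | F p.1 p.2} := hF.isCompact
  have hK := hZ.prod (hG.prod hG)
  let f : (X × X) × (X × X) × (X × X) → ℝ := fun t =>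
    max (dist t.1.1 t.2.1.1) (max (dist t.2.1.2 t.2.2.1) (dist t.2.2.2 t.1.2))
  have hf : Continuous f := by fun_prop
  obtain ⟨δ, hδ, hle⟩ := hK.exists_forall_le' hf.continuousOn (a := 0) (by
    rintro ⟨z, ⟨p0, p1⟩, ⟨p2, p3⟩⟩ ⟨hz, h1, h2⟩
    by_contra hc
    have hc' := not_lt.1 hc
    simp only [f, max_le_iff, dist_le_zero] at hc'
    obtain ⟨e1, e2, e3⟩ := hc'
    have h1' : F p0 p1 := h1
    have h2' : F p2 p3 := h2
    subst e1 e2 e3
    exact h z hz _ h1' h2')
  refine ⟨δ, hδ, fun z hz p0 p1 p2 p3 d0 f0 d1 f1 => ?_⟩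
  have := hle (z, (p0, p1), (p2, p3)) ⟨hz, f0, f1⟩
  simp only [f, le_max_iff] at this
  rcases this with h1 | h1 | h1
  · linarith
  · linarith
  · exact h1

theorem exists_remetrize_compact [CompactSpace X] {F : X → X → Prop}
    (hs : ∀ p q, F p q → F q p) (hr : ∀ p, F p p) (hF : IsClosed {p : X × X | F p.1 p.2})
    {Z : Set (X × X)} (hZ : IsCompact Z) (h : ∀ z ∈ Z, ∀ p, F z.1 p → ¬ F p z.2) :
    ∃ (X' : Type) (_ : MetricSpace X') (e : X ≃ₜ X'),
      (∀ p q, F p q → dist (e p) (e q) ≤ 1) ∧ (∀ z ∈ Z, 3 ≤ dist (e z.1) (e z.2)) := by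
  obtain ⟨δ, hδ, hgap⟩ := exists_gap hF hZ h
  obtain ⟨X', m, e, h1, h2⟩ := exists_remetrize hs hr hδ
  exact ⟨X', m, e, h1, fun z hz => h2 _ _ (hgap z hz)⟩

end Pool.Agent.MP_812062_gt

end

-- part MP_812062_gt.Graph
section

/-! A finite graph (a lasso-type graph with an arc attached) with a metric whose span is at least
`3` and whose surjective semi-span is at most `1`. -/

set_option autoImplicit false

namespace Pool.Agent.MP_812062_gt

open Set

/-- Positions of the first token. -/
def listA : List (List Bool) :=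
  [[false, false, false, true, true, true, true, true],
   [false, false, false, true, true, true, true, true],
   [false, false, false, true, true, false, true, true],
   [false, false, true, true, true, false, true, true],
   [false, false, true, true, true, false, true, true],
   [false, false, true, true, false, false, true, true],
   [false, false, true, true, true, false, true, true],
   [false, false, true, true, true, false, true, true],
   [false, false, false, true, true, false, true, true],
   [false, false, false, true, true, true, true, true],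
   [false, false, false, true, true, true, true, true],
   [false, false, false, true, true, true, true, true],
   [false, false, false, true, true, true, true, true],
   [false, false, false, false, true, true, true, true],
   [false, false, false, false, true, true, true, true],
   [false, false, false, false, true, true, true, true],
   [false, false, false, false, false, true, true, true],
   [false, false, false, false, false, true, true, true],
   [false, false, false, false, false, false, true, true],
   [false, false, false, false, false, false, true, true],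
   [false, false, false, true, false, false, true, true],
   [false, false, true, true, false, false, true, true],
   [false, false, true, true, false, false, false, true],
   [false, true, true, true, false, false, false, true],
   [false, true, true, true, false, false, false, true],
   [false, true, true, false, false, false, false, true],
   [false, true, true, true, false, false, false, true],
   [false, true, true, true, true, false, false, true],
   [false, true, true, true, true, false, false, true],
   [false, true, true, true, true, false, false, true]]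

/-- Positions of the second token. -/
def listB : List (List Bool) :=
  [[false, true, true, true, true, false, false, true],
   [false, true, true, true, false, false, false, true],
   [false, true, true, true, false, false, false, true],
   [false, true, true, true, false, false, false, true],
   [false, true, true, false, false, false, false, true],
   [false, true, true, false, false, false, false, true],
   [false, true, true, false, false, false, false, true],
   [false, true, true, true, false, false, false, true],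
   [false, true, true, true, false, false, false, true],
   [false, true, true, true, false, false, false, true],
   [false, false, true, true, false, false, false, true],
   [false, false, true, true, false, false, true, true],
   [false, false, true, true, true, false, true, true],
   [false, false, true, true, true, false, true, true],
   [false, false, false, true, true, false, true, true],
   [false, false, false, true, true, true, true, true],
   [false, false, false, true, true, true, true, true],
   [false, false, false, false, true, true, true, true],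
   [false, false, false, false, true, true, true, true],
   [false, false, false, false, false, true, true, true],
   [false, false, false, false, false, true, true, true],
   [false, false, false, false, false, true, true, true],
   [false, false, false, false, false, true, true, true],
   [false, false, false, false, false, true, true, true],
   [false, false, false, false, false, false, true, true],
   [false, false, false, false, false, false, true, true],
   [false, false, false, false, false, false, true, true],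
   [false, false, false, false, false, false, true, true],
   [false, false, false, true, false, false, true, true],
   [false, false, true, true, false, false, true, true]]

/-- The row `k` of a table. -/
def row (T : List (List Bool)) (k : ℕ) : List Bool := T.getD k []

/-- An entry of a row. -/
def ent (r : List Bool) (i : ℕ) : Bool := r.getD i false

lemma ends_ok : ∀ k < 30, ent (row listA k) 0 = false ∧ ent (row listA k) 7 = true := by
  decide

lemma gaps_ok : ∀ k < 29, ∀ j < 7,
    (ent (row listA k) (j + 1) = ent (row listA k) j ∧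
      ent (row listA (k + 1)) j = ent (row listA k) j ∧
      ent (row listA (k + 1)) (j + 1) = ent (row listA k) j) ∨
    (ent (row listB k) (j + 1) = ent (row listB k) j ∧
      ent (row listB (k + 1)) j = ent (row listB k) j ∧
      ent (row listB (k + 1)) (j + 1) = ent (row listB k) j) := by
  decide

/-- The step `k` of table `S` is covered by a step of table `T`. -/
def covered (S T : List (List Bool)) (k : ℕ) : Prop :=
  ∃ l < 29, (row S k = row T l ∨ row S k = row T (l + 1)) ∧
    (row S (k + 1) = row T l ∨ row S (k + 1) = row T (l + 1))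

lemma cov_AB : ∀ k < 29, covered listA listB k := by
  unfold covered
  decide

lemma cov_BA : ∀ k < 29, covered listB listA k := by
  unfold covered
  decide

/-- The ambient vector space. -/
abbrev Vec : Type := Fin 8 → ℝ

/-- The sign vector of a row. -/
def vec (r : List Bool) : Vec := fun i => if ent r i.val = true then 1 else -1

/-- The basis vector number `j`. -/
def bas (j : ℕ) : Vec := fun i => if i.val = j then 1 else 0

/-- A polygonal path through the first `n + 1` terms of a sequence. -/
def poly {W : Type} [AddCommGroup W] [Module ℝ W] (z : ℕ → W) (n : ℕ) : Set W :=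
  ⋃ k ∈ {k | k < n}, segment ℝ (z k) (z (k + 1))

section Poly
variable {W : Type} [NormedAddCommGroup W] [NormedSpace ℝ W]

lemma mem_poly {z : ℕ → W} {n : ℕ} {x : W} :
    x ∈ poly z n ↔ ∃ k < n, x ∈ segment ℝ (z k) (z (k + 1)) := by
  simp [poly]

lemma poly_succ (z : ℕ → W) (n : ℕ) :
    poly z (n + 1) = poly z n ∪ segment ℝ (z n) (z (n + 1)) := by
  ext x
  simp only [mem_poly, mem_union]
  constructor
  · rintro ⟨k, hk, hx⟩
    rcases Nat.lt_succ_iff_lt_or_eq.1 hk with h | h
    · exact Or.inl ⟨k, h, hx⟩
    · subst h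
      exact Or.inr hx
  · rintro (⟨k, hk, hx⟩ | hx)
    · exact ⟨k, Nat.lt_succ_of_lt hk, hx⟩
    · exact ⟨n, Nat.lt_succ_self n, hx⟩

lemma seg_compact (x y : W) : IsCompact (segment ℝ x y) := by
  rw [segment_eq_image]
  exact isCompact_Icc.image (by fun_prop)

lemma seg_connected (x y : W) : IsConnected (segment ℝ x y) :=
  ⟨⟨x, left_mem_segment ℝ x y⟩, (convex_segment x y).isPreconnected⟩

lemma poly_compact (z : ℕ → W) (n : ℕ) : IsCompact (poly z n) :=
  (finite_lt_nat n).isCompact_biUnion fun _ _ => seg_compact _ _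

lemma poly_connected (z : ℕ → W) (n : ℕ) : IsConnected (poly z (n + 1)) := by
  induction n with
  | zero =>
    rw [poly_succ]
    have : poly z 0 = ∅ := by simp [poly]
    rw [this, empty_union]
    exact seg_connected _ _
  | succ n ih =>
    rw [poly_succ]
    refine ih.union ⟨z (n + 1), ?_, left_mem_segment ℝ _ _⟩ (seg_connected _ _)
    exact mem_poly.2 ⟨n, Nat.lt_succ_self n, right_mem_segment ℝ _ _⟩

end Poly

/-- The path of the first token. -/
def tokA (k : ℕ) : Vec := vec (row listA k)

/-- The path of the second token. -/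
def tokB (k : ℕ) : Vec := vec (row listB k)

/-- The graph travelled by the tokens. -/
def setY : Set Vec := poly tokA 29

/-- The attached arc. -/
def setL : Set Vec := poly bas 7

/-- The connected set of pairs. -/
def setZ : Set (Vec × Vec) := poly (fun k => (tokA k, tokB k)) 29

/-- The whole graph. -/
def setX : Set (Vec × Vec) := setY ×ˢ {bas 7} ∪ {tokA 0} ×ˢ setL

lemma poly_subset_of_covered {S T : List (List Bool)} (h : ∀ k < 29, covered S T k) :
    poly (fun k => vec (row S k)) 29 ⊆ poly (fun k => vec (row T k)) 29 := by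
  intro x hx
  obtain ⟨k, hk, hx⟩ := mem_poly.1 hx
  obtain ⟨l, hl, h1, h2⟩ := h k hk
  refine mem_poly.2 ⟨l, hl, (convex_segment _ _).segment_subset ?_ ?_ hx⟩
  · rcases h1 with h1 | h1 <;> rw [h1]
    · exact left_mem_segment ℝ _ _
    · exact right_mem_segment ℝ _ _
  · rcases h2 with h2 | h2 <;> rw [h2]
    · exact left_mem_segment ℝ _ _
    · exact right_mem_segment ℝ _ _

lemma polyB_eq : poly tokB 29 = setY :=
  Subset.antisymm (poly_subset_of_covered cov_BA) (poly_subset_of_covered cov_AB)

lemma fst_setZ : Prod.fst '' setZ = setY := by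
  unfold setZ setY poly
  rw [image_iUnion₂]
  refine iUnion₂_congr fun k _ => ?_
  exact image_segment ℝ (LinearMap.fst ℝ Vec Vec).toAffineMap _ _

lemma snd_setZ : Prod.snd '' setZ = setY := by
  rw [← polyB_eq]
  unfold setZ poly
  rw [image_iUnion₂]
  refine iUnion₂_congr fun k _ => ?_
  exact image_segment ℝ (LinearMap.snd ℝ Vec Vec).toAffineMap _ _

lemma dot_bas (y : Vec) (j : Fin 8) : y ⬝ᵥ bas j.val = y j := by
  unfold dotProduct bas
  rw [Finset.sum_eq_single j]
  · simp
  · intro b _ hb
    have : b.val ≠ j.val := fun h => hb (Fin.ext h)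
    simp [this]
  · simp

lemma setY_ends {y : Vec} (hy : y ∈ setY) : y ⬝ᵥ bas 0 = -1 ∧ y ⬝ᵥ bas 7 = 1 := by
  obtain ⟨k, hk, s, t, hs, ht, hst, rfl⟩ := mem_poly.1 hy
  have e0 := dot_bas (s • tokA k + t • tokA (k + 1)) 0
  have e7 := dot_bas (s • tokA k + t • tokA (k + 1)) 7
  obtain ⟨a0, a7⟩ := ends_ok k (by omega)
  obtain ⟨b0, b7⟩ := ends_ok (k + 1) (by omega)
  constructor
  · refine Eq.trans e0 ?_
    simp [tokA, vec, a0, b0]
    linarith
  · refine Eq.trans e7 ?_
    simp [tokA, vec, a7, b7]
    linarith

lemma dot_ne_zero {r r' : List Bool} {j : ℕ} (hj : j < 7) (h1 : ent r (j + 1) = ent r j)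
    (h2 : ent r' j = ent r j) (h3 : ent r' (j + 1) = ent r j) {s t u v : ℝ} (hst : s + t = 1)
    (huv : u + v = 1) : (s • vec r + t • vec r') ⬝ᵥ (u • bas j + v • bas (j + 1)) ≠ 0 := by
  have e1 := dot_bas (s • vec r + t • vec r') ⟨j, by omega⟩
  have e2 := dot_bas (s • vec r + t • vec r') ⟨j + 1, by omega⟩
  rw [dotProduct_add, dotProduct_smul, dotProduct_smul]
  simp only at e1 e2
  rw [e1, e2]
  simp only [Pi.add_apply, Pi.smul_apply, smul_eq_mul, vec, h1, h2, h3]
  have hs : s = 1 - t := by linarith
  have hu : u = 1 - v := by linarith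
  subst hs hu
  split_ifs
  · intro h
    ring_nf at h
    exact one_ne_zero h
  · intro h
    ring_nf at h
    norm_num at h

lemma no_common_zero {z : Vec × Vec} (hz : z ∈ setZ) {w : Vec} (hw : w ∈ setL) :
    ¬ (z.1 ⬝ᵥ w = 0 ∧ z.2 ⬝ᵥ w = 0) := by
  obtain ⟨k, hk, s, t, hs, ht, hst, rfl⟩ := mem_poly.1 hz
  obtain ⟨j, hj, u, v, hu, hv, huv, rfl⟩ := mem_poly.1 hw
  rintro ⟨z1, z2⟩
  rcases gaps_ok k hk j hj with ⟨h1, h2, h3⟩ | ⟨h1, h2, h3⟩
  · exact dot_ne_zero hj h1 h2 h3 hst huv z1
  · exact dot_ne_zero hj h1 h2 h3 hst huv z2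

lemma bas0_mem : bas 0 ∈ setL := mem_poly.2 ⟨0, by norm_num, left_mem_segment ℝ _ _⟩

lemma bas7_mem : bas 7 ∈ setL := mem_poly.2 ⟨6, by norm_num, right_mem_segment ℝ _ _⟩

lemma tokA0_mem : tokA 0 ∈ setY := mem_poly.2 ⟨0, by norm_num, left_mem_segment ℝ _ _⟩

lemma exists_zero {y : Vec} (hy : y ∈ setY) : ∃ w ∈ setL, y ⬝ᵥ w = 0 := by
  have hc : Continuous fun w : Vec => y ⬝ᵥ w := by fun_prop
  obtain ⟨h0, h7⟩ := setY_ends hy
  have := (poly_connected bas 6).isPreconnected.intermediate_value bas0_mem bas7_mem
    hc.continuousOn (show (0 : ℝ) ∈ Icc (y ⬝ᵥ bas 0) (y ⬝ᵥ bas 7) by rw [h0, h7]; norm_num)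
  exact this

lemma setX_fst {p : Vec × Vec} (hp : p ∈ setX) : p.1 ∈ setY := by
  rcases hp with h | h
  · exact h.1
  · have : p.1 = tokA 0 := h.1
    rw [this]
    exact tokA0_mem

lemma setX_snd {p : Vec × Vec} (hp : p ∈ setX) : p.2 ∈ setL := by
  rcases hp with h | h
  · have : p.2 = bas 7 := h.2
    rw [this]
    exact bas7_mem
  · exact h.2

lemma setX_compact : IsCompact setX :=
  ((poly_compact _ _).prod isCompact_singleton).union (isCompact_singleton.prod (poly_compact _ _))

lemma setX_connected : IsConnected setX :=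
  ((poly_connected tokA 28).prod isConnected_singleton).union
    ⟨(tokA 0, bas 7), ⟨tokA0_mem, rfl⟩, ⟨rfl, bas7_mem⟩⟩
    (isConnected_singleton.prod (poly_connected bas 6))

/-- The barrier function. -/
def bar (p q : setX) : ℝ := q.1.1 ⬝ᵥ p.1.2

lemma bar_cont : Continuous fun z : setX × setX => bar z.1 z.2 := by
  unfold bar
  fun_prop

/-- The closeness relation. -/
def rel (p q : setX) : Prop := p = q ∨ bar p q = 0 ∨ bar q p = 0

lemma rel_closed : IsClosed {z : setX × setX | rel z.1 z.2} := by
  have h1 : IsClosed {z : setX × setX | z.1 = z.2} := isClosed_eq continuous_fst continuous_snd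
  have h2 : IsClosed {z : setX × setX | bar z.1 z.2 = 0} := isClosed_eq bar_cont continuous_const
  have h3 : IsClosed {z : setX × setX | bar z.2 z.1 = 0} :=
    isClosed_eq (bar_cont.comp continuous_swap) continuous_const
  exact h1.union (h2.union h3)

lemma fst_mem_setY (z : setZ) : z.1.1 ∈ setY := by
  rw [← fst_setZ]
  exact mem_image_of_mem _ z.2

lemma snd_mem_setY (z : setZ) : z.1.2 ∈ setY := by
  rw [← snd_setZ]
  exact mem_image_of_mem _ z.2

/-- Inclusion of the pair set into the square of the graph. -/
def inc (z : setZ) : setX × setX :=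
  (⟨(z.1.1, bas 7), Or.inl ⟨fst_mem_setY z, rfl⟩⟩,
   ⟨(z.1.2, bas 7), Or.inl ⟨snd_mem_setY z, rfl⟩⟩)

lemma inc_cont : Continuous inc := by
  unfold inc
  fun_prop

lemma inc_proj : Prod.fst '' range inc = Prod.snd '' range inc := by
  ext p
  constructor
  · rintro ⟨_, ⟨z, rfl⟩, rfl⟩
    have h : z.1.1 ∈ Prod.snd '' setZ := by
      rw [snd_setZ, ← fst_setZ]
      exact mem_image_of_mem _ z.2
    obtain ⟨z', hz', e⟩ := h
    refine ⟨inc ⟨z', hz'⟩, mem_range_self _, Subtype.ext ?_⟩
    simp [inc, e]
  · rintro ⟨_, ⟨z, rfl⟩, rfl⟩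
    have h : z.1.2 ∈ Prod.fst '' setZ := by
      rw [fst_setZ, ← snd_setZ]
      exact mem_image_of_mem _ z.2
    obtain ⟨z', hz', e⟩ := h
    refine ⟨inc ⟨z', hz'⟩, mem_range_self _, Subtype.ext ?_⟩
    simp [inc, e]

lemma inc_far : ∀ z ∈ range inc, ∀ p, rel z.1 p → ¬ rel p z.2 := by
  rintro _ ⟨z, rfl⟩ p h1 h2
  have hy : z.1.1 ∈ setY := fst_mem_setY z
  have hy' : z.1.2 ∈ setY := snd_mem_setY z
  have hp := (setY_ends (setX_fst p.2)).2
  have hw := setX_snd p.2
  have y7 := (setY_ends hy).2
  have y7' := (setY_ends hy').2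
  rcases h1 with h1 | h1 | h1
  · subst h1
    rcases h2 with h2 | h2 | h2
    · have e : z.1.1 = z.1.2 := congrArg (fun t : setX => t.1.1) h2
      obtain ⟨w, hw', h0⟩ := exists_zero hy
      exact no_common_zero z.2 hw' ⟨h0, e ▸ h0⟩
    · have : z.1.2 ⬝ᵥ bas 7 = 0 := h2
      linarith
    · have : z.1.1 ⬝ᵥ bas 7 = 0 := h2
      linarith
  · have : p.1.1 ⬝ᵥ bas 7 = 0 := h1
    linarith
  · have h1' : z.1.1 ⬝ᵥ p.1.2 = 0 := h1
    rcases h2 with h2 | h2 | h2
    · subst h2
      have : z.1.1 ⬝ᵥ bas 7 = 0 := h1'
      linarith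
    · exact no_common_zero z.2 hw ⟨h1', h2⟩
    · have : p.1.1 ⬝ᵥ bas 7 = 0 := h2
      linarith

lemma barrier {Z : Set (setX × setX)} (hZ : IsPreconnected Z) (h : Prod.fst '' Z = univ) :
    ∃ z ∈ Z, rel z.1 z.2 := by
  let p0 : setX := ⟨(tokA 0, bas 0), Or.inr ⟨rfl, bas0_mem⟩⟩
  let p7 : setX := ⟨(tokA 0, bas 7), Or.inr ⟨rfl, bas7_mem⟩⟩
  obtain ⟨z0, hz0, e0⟩ : p0 ∈ Prod.fst '' Z := h ▸ mem_univ _
  obtain ⟨z7, hz7, e7⟩ : p7 ∈ Prod.fst '' Z := h ▸ mem_univ _
  have b0 : bar z0.1 z0.2 = -1 := by
    rw [e0]
    exact (setY_ends (setX_fst z0.2.2)).1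
  have b7 : bar z7.1 z7.2 = 1 := by
    rw [e7]
    exact (setY_ends (setX_fst z7.2.2)).2
  obtain ⟨z, hz, h0⟩ := hZ.intermediate_value hz0 hz7 bar_cont.continuousOn
    (show (0 : ℝ) ∈ Icc (bar z0.1 z0.2) (bar z7.1 z7.2) by rw [b0, b7]; norm_num)
  exact ⟨z, hz, Or.inr (Or.inl h0)⟩

/-- A compact connected metric space (a finite graph) with a connected set of pairs with equal
projections at distance at least `3`, in which every connected set of pairs whose first
projection is onto contains a pair at distance at most `1`. -/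
theorem exists_graph : ∃ (X : Type) (_ : MetricSpace X) (_ : CompactSpace X) (_ : ConnectedSpace X),
    (∃ Z : Set (X × X), IsConnected Z ∧ Prod.fst '' Z = Prod.snd '' Z ∧
      ∀ p ∈ Z, 3 ≤ dist p.1 p.2) ∧
    (∀ Z : Set (X × X), IsConnected Z → Prod.fst '' Z = univ → ∃ p ∈ Z, dist p.1 p.2 ≤ 1) := by
  have : CompactSpace setX := isCompact_iff_compactSpace.1 setX_compact
  have : ConnectedSpace setX := isConnected_iff_connectedSpace.1 setX_connected
  have : CompactSpace setZ := isCompact_iff_compactSpace.1 (poly_compact _ _)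
  have : ConnectedSpace setZ := isConnected_iff_connectedSpace.1 (poly_connected _ 28)
  obtain ⟨X', m, e, h1, h3⟩ := exists_remetrize_compact (F := rel)
    (fun p q h => by
      rcases h with h | h | h
      · exact Or.inl h.symm
      · exact Or.inr (Or.inr h)
      · exact Or.inr (Or.inl h))
    (fun p => Or.inl rfl) rel_closed (isCompact_range inc_cont) inc_far
  refine ⟨X', m, e.compactSpace, e.surjective.connectedSpace e.continuous,
    ⟨Prod.map e e '' range inc, ?_, ?_, ?_⟩, fun Z hZ hsurj => ?_⟩
  · exact (isConnected_range inc_cont).image _ (e.continuous.prodMap e.continuous).continuousOn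
  · have a1 : Prod.fst '' (Prod.map e e '' range inc) = e '' (Prod.fst '' range inc) := by
      rw [image_image, image_image]
      rfl
    have a2 : Prod.snd '' (Prod.map e e '' range inc) = e '' (Prod.snd '' range inc) := by
      rw [image_image, image_image]
      rfl
    rw [a1, a2, inc_proj]
  · rintro _ ⟨z, hz, rfl⟩
    exact h3 z hz
  · have hc : IsPreconnected (Prod.map e.symm e.symm '' Z) :=
      hZ.isPreconnected.image _ (e.symm.continuous.prodMap e.symm.continuous).continuousOn
    have hs : Prod.fst '' (Prod.map e.symm e.symm '' Z) = univ := by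
      have a1 : Prod.fst '' (Prod.map e.symm e.symm '' Z) = e.symm '' (Prod.fst '' Z) := by
        rw [image_image, image_image]
        rfl
      rw [a1, hsurj, image_univ]
      exact e.symm.surjective.range_eq
    obtain ⟨_, ⟨p, hp, rfl⟩, hr⟩ := barrier hc hs
    refine ⟨p, hp, ?_⟩
    have := h1 _ _ hr
    simpa using this

end Pool.Agent.MP_812062_gt

end
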